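import Pool.Agent.W229.HD.Stm

set_option autoImplicit false
set_option linter.all false

namespace Pool.Agent.W918.HD

open Pool.Agent.W229.HD

noncomputable section

/-- the maximum norm -/
def mx (k : K3) : ℕ := Finset.univ.sup fun j => (k j).natAbs

theorem natAbs_le_mx (k : K3) (j : Fin 3) : (k j).natAbs ≤ mx k :=
  Finset.le_sup (f := fun j => (k j).natAbs) (Finset.mem_univ j)

theorem mx_le_iff (k : K3) (n : ℕ) : mx k ≤ n ↔ ∀ j, (k j).natAbs ≤ n := by
  unfold mx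
  rw [Finset.sup_le_iff]
  simp

theorem mx_le_nm (k : K3) : (mx k : ℝ) ≤ nm k := by
  obtain ⟨j, -, hj⟩ := Finset.exists_mem_eq_sup (Finset.univ : Finset (Fin 3)) Finset.univ_nonempty
    (fun j => (k j).natAbs)
  have h1 : mx k = (k j).natAbs := hj
  rw [h1]
  unfold nm
  apply Real.le_sqrt_of_sq_le
  have h2 : (((k j).natAbs : ℕ) : ℝ) ^ 2 = (k j : ℝ) ^ 2 := by
    rw [Nat.cast_natAbs, Int.cast_abs, sq_abs]
  rw [h2]
  exact Finset.single_le_sum (f := fun j => (k j : ℝ) ^ 2) (fun i _ => sq_nonneg _)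
    (Finset.mem_univ j)

theorem mx_pos (k : K3) (hk : k ≠ 0) : 1 ≤ mx k := by
  by_contra h
  apply hk
  have h0 : mx k = 0 := by omega
  funext j
  have := natAbs_le_mx k j
  simp only [Pi.zero_apply]
  omega

/-- the cube -/
def cube (n : ℕ) : Finset K3 := Fintype.piFinset fun _ => Finset.Icc (-(n : ℤ)) n

theorem mem_cube (n : ℕ) (k : K3) : k ∈ cube n ↔ mx k ≤ n := by
  unfold cube
  rw [Fintype.mem_piFinset, mx_le_iff]
  constructor
  · intro h j
    have := h j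
    rw [Finset.mem_Icc] at this
    omega
  · intro h j
    have := h j
    rw [Finset.mem_Icc]
    omega

theorem card_cube (n : ℕ) : (cube n).card = (2 * n + 1) ^ 3 := by
  unfold cube
  rw [Fintype.card_piFinset]
  simp only [Int.card_Icc, Finset.prod_const, Finset.card_univ, Fintype.card_fin]
  congr 1
  omega

theorem card_shell (F : Finset K3) (j : ℕ) (hj : 1 ≤ j) :
    (((F.filter fun l => mx l = j).card : ℕ) : ℝ) ≤ 26 * (j : ℝ) ^ 2 := by
  obtain ⟨i, rfl⟩ : ∃ i, j = i + 1 := ⟨j - 1, by omega⟩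
  have h1 : (F.filter fun l => mx l = i + 1) ⊆ cube (i + 1) \ cube i := by
    intro l hl
    rw [Finset.mem_filter] at hl
    rw [Finset.mem_sdiff, mem_cube, mem_cube]
    omega
  have h2 : cube i ⊆ cube (i + 1) := by
    intro l hl
    rw [mem_cube] at hl ⊢
    omega
  have h3 := Finset.card_le_card h1
  rw [Finset.card_sdiff_of_subset h2, card_cube, card_cube] at h3
  have h4 : (2 * (i + 1) + 1) ^ 3 - (2 * i + 1) ^ 3 ≤ 26 * (i + 1) ^ 2 := by
    rw [Nat.sub_le_iff_le_add]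
    nlinarith
  exact_mod_cast h3.trans h4

theorem sum_shell (h : ℕ → ℝ) (hh : ∀ j, 0 ≤ h j) (F : Finset K3) (M : ℕ)
    (hF : ∀ l ∈ F, l ≠ 0 ∧ mx l ≤ M) :
    ∑ l ∈ F, h (mx l) ≤ ∑ j ∈ Finset.Icc 1 M, 26 * (j : ℝ) ^ 2 * h j := by
  have hm : ∀ l ∈ F, mx l ∈ Finset.Icc 1 M := by
    intro l hl
    rw [Finset.mem_Icc]
    exact ⟨mx_pos l (hF l hl).1, (hF l hl).2⟩
  rw [← Finset.sum_fiberwise_of_maps_to hm]
  apply Finset.sum_le_sum
  intro j hj
  rw [Finset.mem_Icc] at hj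
  have h1 : ∑ l ∈ F.filter (fun l => mx l = j), h (mx l) =
      ((F.filter fun l => mx l = j).card : ℝ) * h j := by
    rw [Finset.sum_congr rfl (g := fun _ => h j)]
    · rw [Finset.sum_const, nsmul_eq_mul]
    · intro l hl
      rw [(Finset.mem_filter.mp hl).2]
  rw [h1]
  exact mul_le_mul_of_nonneg_right (card_shell F j hj.1) (hh j)

theorem sum_inv_sq (M : ℕ) : ∑ j ∈ Finset.Icc 1 M, ((j : ℝ) ^ 2)⁻¹ ≤ 2 - 1 / (M : ℝ) := by
  induction M with
  | zero => simp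
  | succ n ih =>
    rw [Finset.sum_Icc_succ_top (by omega)]
    rcases Nat.eq_zero_or_pos n with h | h
    · subst h
      norm_num
    · have hn : (0 : ℝ) < n := by exact_mod_cast h
      have h1 : (((n + 1 : ℕ) : ℝ) ^ 2)⁻¹ ≤ 1 / (n : ℝ) - 1 / ((n + 1 : ℕ) : ℝ) := by
        push_cast
        rw [div_sub_div _ _ hn.ne' (by positivity), inv_eq_one_div, div_le_div_iff₀ (by positivity) (by positivity)]
        nlinarith
      linarith

theorem sum_inv_sq' (M : ℕ) : ∑ j ∈ Finset.Icc 1 M, ((j : ℝ) ^ 2)⁻¹ ≤ 2 := by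
  have h := sum_inv_sq M
  have h2 : (0 : ℝ) ≤ 1 / (M : ℝ) := by positivity
  linarith

theorem sum_id (M : ℕ) : ∑ j ∈ Finset.Icc 1 M, (j : ℝ) ≤ (M : ℝ) ^ 2 := by
  have h : ∑ j ∈ Finset.Icc 1 M, (j : ℝ) ≤ ∑ j ∈ Finset.Icc 1 M, (M : ℝ) := by
    apply Finset.sum_le_sum
    intro j hj
    rw [Finset.mem_Icc] at hj
    exact_mod_cast hj.2
  rw [Finset.sum_const, Nat.card_Icc, nsmul_eq_mul] at h
  have h2 : ((M + 1 - 1 : ℕ) : ℝ) = M := by simp
  rw [h2] at h
  nlinarith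

theorem four (F : Finset K3) (hF : ∀ l ∈ F, l ≠ 0) : ∑ l ∈ F, ((mx l : ℝ) ^ 4)⁻¹ ≤ 52 := by
  have h := sum_shell (fun j => ((j : ℝ) ^ 4)⁻¹) (fun j => by positivity) F (F.sup mx)
    (fun l hl => ⟨hF l hl, Finset.le_sup hl⟩)
  refine h.trans ?_
  have h2 : ∑ j ∈ Finset.Icc 1 (F.sup mx), 26 * (j : ℝ) ^ 2 * ((j : ℝ) ^ 4)⁻¹ =
      26 * ∑ j ∈ Finset.Icc 1 (F.sup mx), ((j : ℝ) ^ 2)⁻¹ := by
    rw [Finset.mul_sum]
    apply Finset.sum_congr rfl
    intro j hj
    rw [Finset.mem_Icc] at hj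
    have : (0 : ℝ) < j := by exact_mod_cast hj.1
    field_simp
  simp only [h2]
  have := sum_inv_sq' (F.sup mx)
  linarith

theorem lat : S_LAT := by
  refine ⟨52, by norm_num, ?_, ?_, ?_⟩
  · intro F R hR hF
    have h1 : ∑ l ∈ F, (nm l)⁻¹ ≤ ∑ l ∈ F, (mx l : ℝ)⁻¹ := by
      apply Finset.sum_le_sum
      intro l hl
      have : (1 : ℝ) ≤ mx l := by exact_mod_cast mx_pos l (hF l hl).1
      exact inv_anti₀ (by linarith) (mx_le_nm l)
    refine h1.trans ?_
    have h := sum_shell (fun j => (j : ℝ)⁻¹) (fun j => by positivity) F ⌊R⌋₊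
      (fun l hl => ⟨(hF l hl).1, Nat.le_floor ((mx_le_nm l).trans (hF l hl).2)⟩)
    refine h.trans ?_
    have h2 : ∑ j ∈ Finset.Icc 1 ⌊R⌋₊, 26 * (j : ℝ) ^ 2 * (j : ℝ)⁻¹ =
        26 * ∑ j ∈ Finset.Icc 1 ⌊R⌋₊, (j : ℝ) := by
      rw [Finset.mul_sum]
      apply Finset.sum_congr rfl
      intro j hj
      rw [Finset.mem_Icc] at hj
      have : (0 : ℝ) < j := by exact_mod_cast hj.1
      field_simp
    simp only [h2]
    have h3 := sum_id ⌊R⌋₊
    have h4 : ((⌊R⌋₊ : ℕ) : ℝ) ≤ R := Nat.floor_le (by linarith)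
    have h5 : ((⌊R⌋₊ : ℕ) : ℝ) ^ 2 ≤ R ^ 2 := pow_le_pow_left₀ (by positivity) h4 2
    nlinarith
  · intro F hF
    refine le_trans ?_ (four F hF)
    apply Finset.sum_le_sum
    intro l hl
    have : (1 : ℝ) ≤ mx l := by exact_mod_cast mx_pos l (hF l hl)
    exact inv_anti₀ (by positivity) (pow_le_pow_left₀ (by positivity) (mx_le_nm l) 4)
  · apply summable_of_sum_le (c := 53)
    · intro k
      have : 0 ≤ nm k := Real.sqrt_nonneg _
      show 0 ≤ ((1 + nm k) ^ 4)⁻¹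
      positivity
    · intro F
      classical
      have h0 : ∀ k : K3, ((1 + nm k) ^ 4)⁻¹ ≤ 1 := by
        intro k
        have : 0 ≤ nm k := Real.sqrt_nonneg _
        apply inv_le_one_of_one_le₀
        exact one_le_pow₀ (by linarith)
      have h1 : ∑ k ∈ F, ((1 + nm k) ^ 4)⁻¹ ≤ ∑ k ∈ insert 0 F, ((1 + nm k) ^ 4)⁻¹ := by
        apply Finset.sum_le_sum_of_subset_of_nonneg (Finset.subset_insert _ _)
        intro k _ _
        have : 0 ≤ nm k := Real.sqrt_nonneg _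
        positivity
      refine h1.trans ?_
      rw [← Finset.add_sum_erase _ _ (Finset.mem_insert_self 0 F)]
      have h2 : ∑ k ∈ (insert 0 F).erase 0, ((1 + nm k) ^ 4)⁻¹ ≤ 52 := by
        refine le_trans ?_ (four ((insert 0 F).erase 0) (fun l hl => Finset.ne_of_mem_erase hl))
        apply Finset.sum_le_sum
        intro l hl
        have h3 : (1 : ℝ) ≤ mx l := by exact_mod_cast mx_pos l (Finset.ne_of_mem_erase hl)
        have h4 := mx_le_nm l
        exact inv_anti₀ (by positivity) (pow_le_pow_left₀ (by positivity) (by linarith) 4)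
      have h3 := h0 0
      linarith

end

end Pool.Agent.W918.HD
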